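import Mathlib

/-!
The residual-type step for unequal-data-demand PIR codes fails: there is a binary
`(12,6,6,6,6)`-PIR code of length `19`, but no binary `(3,3,3,3)`-PIR code of length `7`.
-/

open Finset

namespace Pool.Agent.Results.MP_f85992_lc.NoResidualStep

/-- A linear `(t 0, …, t (k-1))`-PIR code of length `n` over `F` exists: there are `n` columns
`G i` in `F ^ k` such that the encoder is one-to-one and, for every `j`, there are `t j` pairwise
disjoint sets of positions whose columns span a subspace containing the unit vector `e_j`. -/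
def HasPIR (F : Type) [Field F] (n k : ℕ) (t : Fin k → ℕ) : Prop :=
  ∃ G : Fin n → (Fin k → F),
    Function.Injective (fun (a : Fin k → F) (i : Fin n) => ∑ j, a j * G i j) ∧
    ∀ j : Fin k, ∃ R : Fin (t j) → Finset (Fin n), (∀ s s', s ≠ s' → Disjoint (R s) (R s')) ∧
      ∀ s, Pi.single j (1 : F) ∈ Submodule.span F (G '' (R s : Set (Fin n)))

/-- The residual-type step: from a `(t₁, …, t_k)`-PIR code of length `n` over the field with `q`
elements (`k ≥ 2`, `t₁ ≥ ⋯ ≥ t_k ≥ 1`) to a `(⌈t₂/q⌉, …, ⌈t_k/q⌉)`-PIR code of length `n - t₁`. -/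
def ResidualStep : Prop :=
  ∀ (F : Type) [Field F] [Fintype F] (n k : ℕ) (t : Fin (k + 1) → ℕ), 1 ≤ k → Antitone t →
    (∀ j, 1 ≤ t j) → HasPIR F n (k + 1) t →
      HasPIR F (n - t 0) k (fun j => t j.succ ⌈/⌉ Fintype.card F)

/-! ### The code of length 19 -/

/-- The columns. -/
def cols : Fin 19 → (Fin 5 → ZMod 2) :=
  ![![0, 0, 0, 0, 1], ![1, 0, 0, 0, 1], ![0, 0, 0, 1, 0], ![1, 0, 0, 1, 0], ![0, 0, 1, 0, 0],
    ![1, 0, 1, 0, 0], ![0, 0, 1, 1, 1], ![1, 0, 1, 1, 1], ![0, 1, 0, 0, 0], ![1, 1, 0, 0, 0],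
    ![0, 1, 0, 1, 1], ![1, 1, 0, 1, 1], ![0, 1, 1, 0, 1], ![1, 1, 1, 0, 1], ![1, 0, 0, 0, 0],
    ![1, 0, 0, 0, 0], ![1, 0, 0, 0, 0], ![1, 0, 0, 0, 0], ![1, 0, 0, 0, 0]]

/-- The demands. -/
def dem : Fin 5 → ℕ := ![12, 6, 6, 6, 6]

/-- The recovery sets of the first symbol. -/
def rec0 : Fin 12 → Finset (Fin 19) :=
  ![{0, 1}, {2, 3}, {4, 5}, {6, 7}, {8, 9}, {10, 11}, {12, 13}, {14}, {15}, {16}, {17}, {18}]

/-- The recovery sets of the other symbols. -/
def recS : Fin 4 → Fin 6 → Finset (Fin 19) :=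
  ![![{8}, {9, 14}, {0, 2, 10}, {1, 4, 12, 15}, {3, 6, 13}, {5, 7, 11, 16}],
    ![{4}, {5, 14}, {0, 2, 6}, {1, 8, 12, 15}, {3, 10, 13}, {7, 9, 11, 16}],
    ![{2}, {3, 14}, {0, 4, 6}, {1, 8, 10, 15}, {5, 11, 12}, {7, 9, 13, 16}],
    ![{0}, {1, 14}, {2, 4, 6}, {3, 8, 10, 15}, {5, 9, 12}, {7, 11, 13, 16}]]

theorem rec0_disj : ∀ s s', s ≠ s' → Disjoint (rec0 s) (rec0 s') := by decide

set_option maxRecDepth 10000 in
theorem recS_disj : ∀ j s s', s ≠ s' → Disjoint (recS j s) (recS j s') := by decide

theorem rec0_sum : ∀ s i, (∑ x ∈ rec0 s, cols x) i = (Pi.single 0 1 : Fin 5 → ZMod 2) i := by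
  decide

set_option maxRecDepth 10000 in
theorem recS_sum : ∀ (j : Fin 4) s i,
    (∑ x ∈ recS j s, cols x) i = (Pi.single j.succ 1 : Fin 5 → ZMod 2) i := by
  decide

theorem mem_span_of_sum {n k : ℕ} (G : Fin n → (Fin k → ZMod 2)) (S : Finset (Fin n))
    (v : Fin k → ZMod 2) (h : ∑ x ∈ S, G x = v) :
    v ∈ Submodule.span (ZMod 2) (G '' (S : Set (Fin n))) := by
  rw [← h]
  exact Submodule.sum_mem _ fun x hx => Submodule.subset_span ⟨x, hx, rfl⟩

/-- If every symbol has a recovery set, the encoder is one-to-one. -/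
theorem enc_inj {n k : ℕ} (G : Fin n → (Fin k → ZMod 2))
    (h : ∀ j, ∃ S : Finset (Fin n), ∑ x ∈ S, G x = Pi.single j 1) :
    Function.Injective (fun (a : Fin k → ZMod 2) (i : Fin n) => ∑ j, a j * G i j) := by
  intro a b hab
  ext j
  obtain ⟨S, hS⟩ := h j
  have key : ∀ a : Fin k → ZMod 2, ∑ x ∈ S, ∑ l, a l * G x l = a j := by
    intro a
    rw [Finset.sum_comm]
    have : ∀ l, ∑ x ∈ S, a l * G x l = a l * (Pi.single j 1 : Fin k → ZMod 2) l := by
      intro l
      rw [← Finset.mul_sum, ← hS, Finset.sum_apply]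
    simp only [this]
    simp [Pi.single_apply]
  have h1 := key a
  have h2 := key b
  rw [← h1, ← h2]
  refine Finset.sum_congr rfl fun x _ => ?_
  exact congrFun hab x

theorem code19 : HasPIR (ZMod 2) 19 5 dem := by
  have h0 : ∀ s, ∑ x ∈ rec0 s, cols x = Pi.single 0 1 := fun s => funext (rec0_sum s)
  have hS : ∀ (j : Fin 4) s, ∑ x ∈ recS j s, cols x = Pi.single j.succ 1 := fun j s =>
    funext (recS_sum j s)
  refine ⟨cols, enc_inj cols ?_, ?_⟩
  · intro j
    refine Fin.cases ⟨_, h0 0⟩ (fun j => ⟨_, hS j 0⟩) j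
  · intro j
    refine Fin.cases ?_ (fun j => ?_) j
    · exact ⟨rec0, rec0_disj, fun s => mem_span_of_sum _ _ _ (h0 s)⟩
    · have hd : dem j.succ = 6 := by revert j; decide
      rw [hd]
      exact ⟨recS j, recS_disj j, fun s => mem_span_of_sum _ _ _ (hS j s)⟩

/-! ### No `(3,3,3,3)` code of length 7 -/

section lower

variable (G : Fin 7 → (Fin 4 → ZMod 2))

/-- The encoder. -/
def enc (a : Fin 4 → ZMod 2) (i : Fin 7) : ZMod 2 := ∑ j, a j * G i j

theorem sum_enc (a : Fin 4 → ZMod 2) (S : Finset (Fin 7)) (v : Fin 4 → ZMod 2)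
    (h : ∑ x ∈ S, G x = v) : ∑ x ∈ S, enc G a x = ∑ l, a l * v l := by
  unfold enc
  rw [Finset.sum_comm]
  refine Finset.sum_congr rfl fun l _ => ?_
  rw [← Finset.mul_sum, ← h, Finset.sum_apply]

theorem sum_enc_single (a : Fin 4 → ZMod 2) (S : Finset (Fin 7)) (j : Fin 4)
    (h : ∑ x ∈ S, G x = Pi.single j 1) : ∑ x ∈ S, enc G a x = a j := by
  rw [sum_enc G a S _ h]
  simp [Pi.single_apply]

/-- Codeword plus an error in at most one position. -/
def corr (p : (Fin 4 → ZMod 2) × Option (Fin 7)) (i : Fin 7) : ZMod 2 :=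
  enc G p.1 i + if p.2 = some i then 1 else 0

theorem corr_inj (T : Fin 4 → Fin 3 → Finset (Fin 7))
    (hd : ∀ j s s', s ≠ s' → Disjoint (T j s) (T j s'))
    (hT : ∀ j s, ∑ x ∈ T j s, G x = Pi.single j 1) : Function.Injective (corr G) := by
  rintro ⟨a, o⟩ ⟨b, o'⟩ h
  by_cases hab : a = b
  · subst hab
    have : ∀ i, (o = some i ↔ o' = some i) := by
      intro i
      have h1 := congrFun h i
      simp only [corr, add_right_inj] at h1
      by_cases h2 : o = some i <;> by_cases h3 : o' = some i <;> simp [h2, h3] at h1 ⊢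
    rcases o with _ | i
    · rcases o' with _ | i'
      · rfl
      · exact absurd ((this i').2 rfl) (by simp)
    · have := (this i).1 rfl
      rw [this]
  · exfalso
    obtain ⟨j, hj⟩ := Function.ne_iff.1 hab
    have h1 : ∀ s, ∃ i ∈ T j s, enc G a i ≠ enc G b i := by
      intro s
      by_contra hcon
      push Not at hcon
      apply hj
      rw [← sum_enc_single G a _ j (hT j s), ← sum_enc_single G b _ j (hT j s)]
      exact Finset.sum_congr rfl hcon
    choose f hf1 hf2 using h1
    have h2 : ∀ s, o = some (f s) ∨ o' = some (f s) := by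
      intro s
      by_contra hcon
      push Not at hcon
      have h3 := congrFun h (f s)
      simp only [corr, if_neg hcon.1, if_neg hcon.2, add_zero] at h3
      exact hf2 s h3
    have h3 : ∀ s s', s ≠ s' → f s ≠ f s' := by
      intro s s' hs he
      exact Finset.disjoint_left.1 (hd j s s' hs) (hf1 s) (he ▸ hf1 s')
    have h01 := h3 0 1 (by decide)
    have h02 := h3 0 2 (by decide)
    have h12 := h3 1 2 (by decide)
    rcases h2 0 with e0 | e0 <;> rcases h2 1 with e1 | e1 <;> rcases h2 2 with e2 | e2 <;>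
      simp_all

theorem relation_card (hinj : Function.Injective (corr G)) (S : Finset (Fin 7)) (hne : S.Nonempty)
    (hS : ∑ x ∈ S, G x = 0) : S.card = 4 := by
  classical
  have hbij : Function.Bijective (corr G) := by
    rw [Fintype.bijective_iff_injective_and_card]
    refine ⟨hinj, ?_⟩
    simp [ZMod.card]
  have hsum : ∀ p, ∑ x ∈ S, corr G p x = if ∃ i ∈ S, p.2 = some i then 1 else 0 := by
    intro p
    unfold corr
    rw [Finset.sum_add_distrib, sum_enc G p.1 S 0 hS]
    simp only [Pi.zero_apply, mul_zero, Finset.sum_const_zero, zero_add]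
    by_cases h : ∃ i ∈ S, p.2 = some i
    · rw [if_pos h]
      obtain ⟨i, hi, hp⟩ := h
      rw [Finset.sum_eq_single i]
      · rw [if_pos hp]
      · intro x _ hx
        rw [if_neg]
        rw [hp]
        intro h
        exact hx (Option.some_injective _ h).symm
      · exact fun h => absurd hi h
    · rw [if_neg h]
      refine Finset.sum_eq_zero fun x hx => ?_
      rw [if_neg]
      exact fun h' => h ⟨x, hx, h'⟩
  -- count the vectors with `S`-sum equal to one in two ways
  have hA : (univ.filter fun x : Fin 7 → ZMod 2 => ∑ i ∈ S, x i = 1).card = 64 := by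
    obtain ⟨i₀, hi₀⟩ := hne
    have h1 : (univ.filter fun x : Fin 7 → ZMod 2 => ∑ i ∈ S, x i = 1).card =
        (univ.filter fun x : Fin 7 → ZMod 2 => ¬ ∑ i ∈ S, x i = 1).card := by
      have hs : ∀ x : Fin 7 → ZMod 2,
          ∑ i ∈ S, (x + Pi.single i₀ 1 : Fin 7 → ZMod 2) i = ∑ i ∈ S, x i + 1 := by
        intro x
        simp only [Pi.add_apply, Finset.sum_add_distrib]
        congr 1
        rw [Finset.sum_eq_single i₀]
        · simp
        · intro b _ hb
          simp [hb]
        · exact fun h => absurd hi₀ h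
      have h2 : ∀ z : ZMod 2, z = 1 → ¬ (z + 1 = 1) := by decide
      have h3 : ∀ z : ZMod 2, ¬ (z = 1) → z + 1 = 1 := by decide
      refine Finset.card_bij (fun x _ => x + Pi.single i₀ 1) ?_ ?_ ?_
      · intro x hx
        simp only [mem_filter, mem_univ, true_and] at hx ⊢
        rw [hs]
        exact h2 _ hx
      · intro x _ y _ h
        exact add_right_cancel h
      · intro y hy
        simp only [mem_filter, mem_univ, true_and] at hy
        refine ⟨y + Pi.single i₀ 1, ?_, ?_⟩
        · simp only [mem_filter, mem_univ, true_and]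
          rw [hs]
          exact h3 _ hy
        · rw [add_assoc]
          have : (Pi.single i₀ 1 + Pi.single i₀ 1 : Fin 7 → ZMod 2) = 0 := by
            rw [← Pi.single_add]
            have : (1 + 1 : ZMod 2) = 0 := by decide
            rw [this, Pi.single_zero]
          rw [this, add_zero]
    have h2 := Finset.card_filter_add_card_filter_not
      (s := (univ : Finset (Fin 7 → ZMod 2))) (fun x => ∑ i ∈ S, x i = 1)
    rw [← h1] at h2
    have h3 : (univ : Finset (Fin 7 → ZMod 2)).card = 128 := by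
      simp [ZMod.card]
    omega
  have hB : (univ.filter fun x : Fin 7 → ZMod 2 => ∑ i ∈ S, x i = 1).card = 16 * S.card := by
    have h1 : (univ.filter fun x : Fin 7 → ZMod 2 => ∑ i ∈ S, x i = 1).card =
        ((univ : Finset (Fin 4 → ZMod 2)) ×ˢ (S.map ⟨some, Option.some_injective _⟩)).card := by
      symm
      refine Finset.card_bij (fun p _ => corr G p) ?_ ?_ ?_
      · intro p hp
        simp only [mem_product, mem_univ, true_and, mem_map, Function.Embedding.coeFn_mk] at hp
        simp only [mem_filter, mem_univ, true_and]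
        rw [hsum, if_pos]
        obtain ⟨i, hi, h⟩ := hp
        exact ⟨i, hi, h.symm⟩
      · intro p _ p' _ h
        exact hinj h
      · intro x hx
        simp only [mem_filter, mem_univ, true_and] at hx
        obtain ⟨p, rfl⟩ := hbij.2 x
        refine ⟨p, ?_, rfl⟩
        simp only [mem_product, mem_univ, true_and, mem_map, Function.Embedding.coeFn_mk]
        rw [hsum] at hx
        by_contra hcon
        rw [if_neg] at hx
        · exact absurd hx (by decide)
        · rintro ⟨i, hi, h⟩
          exact hcon ⟨i, hi, h.symm⟩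
    rw [h1, card_product, card_map]
    simp [ZMod.card]
  omega

theorem exists_subset_sum {n k : ℕ} (G : Fin n → (Fin k → ZMod 2)) (I : Finset (Fin n))
    (v : Fin k → ZMod 2) (h : v ∈ Submodule.span (ZMod 2) (G '' (I : Set (Fin n)))) :
    ∃ S ⊆ I, ∑ x ∈ S, G x = v := by
  classical
  rw [Submodule.mem_span_image_finset_iff_exists_fun'] at h
  obtain ⟨c, hc⟩ := h
  refine ⟨I.filter fun i => c i = 1, filter_subset _ _, ?_⟩
  rw [← hc, Finset.sum_filter]
  refine Finset.sum_congr rfl fun x _ => ?_
  have : ∀ z : ZMod 2, z = 1 ∨ z = 0 := by decide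
  rcases this (c x) with h1 | h1
  · rw [if_pos h1, h1, one_smul]
  · rw [if_neg (by rw [h1]; decide), h1, zero_smul]

end lower

theorem no_code7 : ¬ HasPIR (ZMod 2) 7 4 (fun _ => 3) := by
  classical
  rintro ⟨G, -, hG⟩
  have hG' : ∀ j : Fin 4, ∃ R : Fin 3 → Finset (Fin 7), (∀ s s', s ≠ s' → Disjoint (R s) (R s')) ∧
      ∀ s, Pi.single j (1 : ZMod 2) ∈ Submodule.span (ZMod 2) (G '' (R s : Set (Fin 7))) := hG
  choose R hRd hRs using hG'
  have hex : ∀ j s, ∃ S ⊆ R j s, ∑ x ∈ S, G x = Pi.single j 1 := fun j s =>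
    exists_subset_sum G (R j s) _ (hRs j s)
  choose T hTR hT using hex
  have hd : ∀ j s s', s ≠ s' → Disjoint (T j s) (T j s') := fun j s s' hs =>
    (hRd j s s' hs).mono (hTR j s) (hTR j s')
  have hinj := corr_inj G T hd hT
  have hbij : Function.Bijective (corr G) := by
    rw [Fintype.bijective_iff_injective_and_card]
    refine ⟨hinj, ?_⟩
    simp [ZMod.card]
  have hneT : ∀ j s, (T j s).Nonempty := by
    intro j s
    rw [Finset.nonempty_iff_ne_empty]
    intro h
    have := hT j s
    rw [h, Finset.sum_empty] at this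
    have := congrFun this j
    simp at this
  have hrel : ∀ j s s', s ≠ s' → ∑ x ∈ T j s ∪ T j s', G x = 0 := by
    intro j s s' hs
    rw [Finset.sum_union (hd j s s' hs), hT, hT, ← Pi.single_add]
    have : (1 + 1 : ZMod 2) = 0 := by decide
    rw [this, Pi.single_zero]
  have hcard : ∀ j s s', s ≠ s' → (T j s ∪ T j s').card = 4 := by
    intro j s s' hs
    refine relation_card G hinj _ ?_ (hrel j s s' hs)
    exact (hneT j s).mono subset_union_left
  have hcard' : ∀ j s s', s ≠ s' → (T j s).card + (T j s').card = 4 := by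
    intro j s s' hs
    rw [← hcard j s s' hs, card_union_of_disjoint (hd j s s' hs)]
  have htwo : ∀ j, (T j 0).card = 2 := by
    intro j
    have h1 := hcard' j 0 1 (by decide)
    have h2 := hcard' j 0 2 (by decide)
    have h3 := hcard' j 1 2 (by decide)
    omega
  obtain ⟨⟨a, o⟩, ha⟩ := hbij.2 (fun _ => 1)
  have ho : ∀ j, ∀ i ∈ T j 0, o ≠ some i := by
    intro j i hi h
    have h1 : ∑ x ∈ T j 0 ∪ T j 1, corr G (a, o) x = ((T j 0 ∪ T j 1).card : ZMod 2) := by
      rw [ha]
      simp
    rw [hcard j 0 1 (by decide)] at h1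
    unfold corr at h1
    rw [Finset.sum_add_distrib, sum_enc G a _ 0 (hrel j 0 1 (by decide)),
      Finset.sum_eq_single i] at h1
    · simp only [h, if_true] at h1
      revert h1
      simp
      decide
    · intro x _ hx
      rw [if_neg]
      rw [h]
      intro h'
      exact hx (Option.some_injective _ h').symm
    · exact fun h' => absurd (mem_union_left _ hi) h'
  have haj : ∀ j, a j = 0 := by
    intro j
    rw [← sum_enc_single G a _ j (hT j 0)]
    have h1 : ∀ x ∈ T j 0, enc G a x = 1 := by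
      intro x hx
      have := congrFun ha x
      simpa [corr, ho j x hx] using this
    rw [Finset.sum_congr rfl h1, Finset.sum_const, htwo j]
    decide
  have henc : ∀ i, enc G a i = 0 := by
    intro i
    unfold enc
    simp [haj]
  have h0 := congrFun ha 0
  have h1 := congrFun ha 1
  simp only [corr, henc, zero_add] at h0 h1
  by_cases e0 : o = some 0
  · rw [e0] at h1
    simp at h1
  · rw [if_neg e0] at h0
    exact absurd h0 (by decide)

/-- The residual-type step fails. -/
theorem result : ¬ ResidualStep := by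
  intro h
  have h1 := h (ZMod 2) 19 4 dem (by norm_num) (by unfold Antitone; decide) (by decide) code19
  have e : (fun j : Fin 4 => dem j.succ ⌈/⌉ Fintype.card (ZMod 2)) = fun _ => 3 := by
    funext j
    rw [ZMod.card]
    have : dem j.succ = 6 := by revert j; decide
    rw [this]
    rfl
  rw [e] at h1
  exact no_code7 h1

end Pool.Agent.Results.MP_f85992_lc.NoResidualStep
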